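import Mathlib

/-!
# MP_fb29e9 (A), block H5: the number of special arcs; the number of small sines
-/

open Real Set Filter Topology

set_option autoImplicit false

namespace Pool.Agent.Helper64.AO

lemma abs_sin_ge (x : ℝ) : 2 * |x / π - round (x / π)| ≤ |sin x| := by
  have hπ := pi_pos
  set z : ℤ := round (x / π) with hz
  have h1 : |x / π - z| ≤ 1 / 2 := abs_sub_round (x / π)
  set y : ℝ := x - z * π with hy
  have h2 : sin x = (-1) ^ z * sin y := by
    have : x = y + z * π := by rw [hy]; ring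
    rw [this, sin_add_int_mul_pi]
  have h3 : |sin x| = |sin y| := by
    rw [h2, abs_mul]
    have : |((-1 : ℝ)) ^ z| = 1 := by
      rw [abs_zpow, abs_neg, abs_one, one_zpow]
    rw [this, one_mul]
  have h4 : |y| = π * |x / π - z| := by
    rw [hy, ← abs_of_pos hπ, ← abs_mul, abs_of_pos hπ]
    congr 1
    field_simp
  have h5 : |y| ≤ π / 2 := by
    rw [h4]
    nlinarith
  have h6 : 2 / π * |y| ≤ sin |y| := mul_le_sin (abs_nonneg y) h5
  have h7 : sin |y| = |sin y| := by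
    rcases abs_cases y with ⟨h, h'⟩ | ⟨h, h'⟩
    · rw [h, abs_of_nonneg (sin_nonneg_of_nonneg_of_le_pi h' (by linarith [h ▸ h5]))]
    · rw [h, sin_neg, abs_of_nonpos]
      have := sin_nonneg_of_nonneg_of_le_pi (x := -y) (by linarith) (by linarith [h ▸ h5])
      rw [sin_neg] at this
      linarith
  rw [h3, ← h7]
  refine le_trans (le_of_eq ?_) h6
  rw [h4]
  field_simp

/-- the number of the naturals in an interval -/
lemma nat_card (N : ℕ) (a b : ℝ) (h : a ≤ b) : (((Finset.range N).filter fun j : ℕ => a ≤ (j : ℝ) ∧ (j : ℝ) ≤ b).card : ℝ) ≤ b - a + 1 := by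
  have h1 : ((Finset.range N).filter fun j : ℕ => a ≤ (j : ℝ) ∧ (j : ℝ) ≤ b).card ≤ (Finset.Icc ⌈a⌉ ⌊b⌋).card := by
    refine Finset.card_le_card_of_injOn (fun j : ℕ => (j : ℤ)) (fun j hj => ?_) fun i _ j _ h => Int.ofNat.inj h
    obtain ⟨-, h2, h3⟩ := Finset.mem_filter.1 hj
    rw [Finset.mem_coe, Finset.mem_Icc]
    exact ⟨Int.ceil_le.2 (by exact_mod_cast h2), Int.le_floor.2 (by exact_mod_cast h3)⟩
  have h2 : ((Finset.Icc ⌈a⌉ ⌊b⌋).card : ℝ) ≤ b - a + 1 := by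
    rw [Int.card_Icc]
    have h3 : ((⌊b⌋ + 1 - ⌈a⌉ : ℤ) : ℝ) ≤ b - a + 1 := by
      push_cast
      linarith [Int.floor_le b, Int.le_ceil a]
    rcases le_or_gt 0 (⌊b⌋ + 1 - ⌈a⌉) with h4 | h4
    · have h5 : ((⌊b⌋ + 1 - ⌈a⌉).toNat : ℝ) = ((⌊b⌋ + 1 - ⌈a⌉ : ℤ) : ℝ) := by
        exact_mod_cast Int.toNat_of_nonneg h4
      rw [h5]
      exact h3
    · rw [Int.toNat_of_nonpos h4.le]
      push_cast
      linarith
  have h3 : (((Finset.range N).filter fun j : ℕ => a ≤ (j : ℝ) ∧ (j : ℝ) ≤ b).card : ℝ) ≤ ((Finset.Icc ⌈a⌉ ⌊b⌋).card : ℝ) := by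
    exact_mod_cast h1
  exact h3.trans h2

/-- the number of small sines of the equidistant angles -/
theorem sin_card (N : ℕ) (hN : 1 ≤ N) (φ ε : ℝ) (hε : 0 ≤ ε) :
    (((Finset.range N).filter fun j : ℕ => |sin (φ - 2 * π * j / N)| ≤ ε).card : ℝ) ≤ 4 * (ε * N / 2 + 1) := by
  classical
  have hπ := pi_pos
  have hN0 : (0 : ℝ) < N := by exact_mod_cast hN
  rcases lt_or_ge 1 ε with h1 | h1
  · have h2 : (((Finset.range N).filter fun j : ℕ => |sin (φ - 2 * π * j / N)| ≤ ε).card : ℝ) ≤ N := by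
      have := Finset.card_filter_le (Finset.range N) (fun j : ℕ => |sin (φ - 2 * π * j / N)| ≤ ε)
      rw [Finset.card_range] at this
      exact_mod_cast this
    nlinarith
  set a : ℝ := φ / π with ha
  set Z : Finset ℤ := Finset.Icc ⌈a - 5 / 2⌉ ⌊a + 1 / 2⌋ with hZ
  have hsub : ((Finset.range N).filter fun j : ℕ => |sin (φ - 2 * π * j / N)| ≤ ε) ⊆
      Z.biUnion fun z => (Finset.range N).filter fun j : ℕ => N / 2 * (a - z - ε / 2) ≤ (j : ℝ) ∧ (j : ℝ) ≤ N / 2 * (a - z + ε / 2) := by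
    intro j hj
    obtain ⟨hj1, hj2⟩ := Finset.mem_filter.1 hj
    have hjN : (j : ℝ) < N := by exact_mod_cast Finset.mem_range.1 hj1
    have hj0 : (0 : ℝ) ≤ j := by positivity
    have h3 := (abs_sin_ge (φ - 2 * π * j / N)).trans hj2
    have h4 : (φ - 2 * π * j / N) / π = a - 2 * j / N := by
      rw [ha]
      field_simp
    rw [h4] at h3
    set z : ℤ := round (a - 2 * j / N) with hz
    have h5 : |a - 2 * j / N - z| ≤ ε / 2 := by linarith
    have h6 := abs_le.1 h5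
    have h7 : 2 * (j : ℝ) / N < 2 := by
      rw [div_lt_iff₀ hN0]
      linarith
    have h8 : 0 ≤ 2 * (j : ℝ) / N := by positivity
    rw [Finset.mem_biUnion]
    refine ⟨z, ?_, ?_⟩
    · rw [hZ, Finset.mem_Icc]
      constructor
      · exact Int.ceil_le.2 (by linarith [h6.2])
      · exact Int.le_floor.2 (by linarith [h6.1])
    · rw [Finset.mem_filter]
      refine ⟨hj1, ?_, ?_⟩
      · have h9 : a - z - ε / 2 ≤ 2 * j / N := by linarith [h6.2]
        rw [le_div_iff₀ hN0] at h9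
        linarith
      · have h9 : 2 * j / N ≤ a - z + ε / 2 := by linarith [h6.1]
        rw [div_le_iff₀ hN0] at h9
        linarith
  have hcZ : (Z.card : ℝ) ≤ 4 := by
    rw [hZ, Int.card_Icc]
    have h3 : ⌊a + 1 / 2⌋ + 1 - ⌈a - 5 / 2⌉ ≤ 4 := by
      have h4 : ((⌊a + 1 / 2⌋ + 1 - ⌈a - 5 / 2⌉ : ℤ) : ℝ) ≤ 4 := by
        push_cast
        linarith [Int.floor_le (a + 1 / 2), Int.le_ceil (a - 5 / 2)]
      exact_mod_cast h4
    have h5 : (⌊a + 1 / 2⌋ + 1 - ⌈a - 5 / 2⌉).toNat ≤ 4 := by omega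
    exact_mod_cast h5
  have h10 := (Finset.card_le_card hsub).trans Finset.card_biUnion_le
  have h11 : (((Finset.range N).filter fun j : ℕ => |sin (φ - 2 * π * j / N)| ≤ ε).card : ℝ) ≤
      ∑ z ∈ Z, ((((Finset.range N).filter fun j : ℕ => N / 2 * (a - z - ε / 2) ≤ (j : ℝ) ∧ (j : ℝ) ≤ N / 2 * (a - z + ε / 2)).card : ℕ) : ℝ) := by
    exact_mod_cast h10
  refine h11.trans ?_
  calc ∑ z ∈ Z, ((((Finset.range N).filter fun j : ℕ => N / 2 * (a - z - ε / 2) ≤ (j : ℝ) ∧ (j : ℝ) ≤ N / 2 * (a - z + ε / 2)).card : ℕ) : ℝ)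
      ≤ ∑ _z ∈ Z, (ε * N / 2 + 1) := by
        refine Finset.sum_le_sum fun z _ => ?_
        refine (nat_card N _ _ ?_).trans (le_of_eq ?_)
        · refine mul_le_mul_of_nonneg_left ?_ (by positivity)
          linarith
        · ring
    _ = Z.card * (ε * N / 2 + 1) := by rw [Finset.sum_const, nsmul_eq_mul]
    _ ≤ 4 * (ε * N / 2 + 1) := mul_le_mul_of_nonneg_right hcZ (by positivity)

end Pool.Agent.Helper64.AO
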