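import Pool.Agent.Helper60.AO.Defs
import Pool.Agent.Helper64.AO.H5pre

/-!
# MP_fb29e9 (A), block H5: the number of the arcs near the direction of a short integer vector
-/

open Real Set Filter Topology

set_option autoImplicit false

namespace Pool.Agent.Helper64.AO

open Pool.Agent.Helper22.AE Pool.Agent.Helper60.AD Pool.Agent.Helper60.AO

lemma nk_sq (k : ℤ × ℤ) : nk k ^ 2 = (k.1 : ℝ) ^ 2 + (k.2 : ℝ) ^ 2 := by
  unfold nk
  rw [← Complex.normSq_eq_norm_sq, Complex.normSq_apply]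
  simp only [cz]
  ring

lemma one_le_nk {k : ℤ × ℤ} (hk : k ≠ 0) : 1 ≤ nk k := by
  have h0 : 0 ≤ nk k := norm_nonneg _
  have h1 : (1 : ℤ) ≤ k.1 ^ 2 + k.2 ^ 2 := by
    by_contra hcon
    have h2 : k.1 ^ 2 + k.2 ^ 2 = 0 := by
      have := sq_nonneg k.1
      have := sq_nonneg k.2
      omega
    have h3 : k.1 = 0 := by nlinarith [sq_nonneg k.1, sq_nonneg k.2]
    have h4 : k.2 = 0 := by nlinarith [sq_nonneg k.1, sq_nonneg k.2]
    exact hk (Prod.ext h3 h4)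
  have h2 : (1 : ℝ) ≤ (k.1 : ℝ) ^ 2 + (k.2 : ℝ) ^ 2 := by exact_mod_cast h1
  rw [← nk_sq] at h2
  nlinarith

lemma abs_le_nk (k : ℤ × ℤ) : |(k.1 : ℝ)| ≤ nk k ∧ |(k.2 : ℝ)| ≤ nk k := by
  have h0 : 0 ≤ nk k := norm_nonneg _
  have h1 := nk_sq k
  constructor
  · refine abs_le_of_sq_le_sq ?_ h0
    nlinarith [sq_nonneg (k.2 : ℝ)]
  · refine abs_le_of_sq_le_sq ?_ h0
    nlinarith [sq_nonneg (k.1 : ℝ)]

open Classical in
/-- the number of the directions `φ + 2 π j / N` near the direction of an integer vector of length at most `V` -/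
theorem special_gen {N : ℕ} (hN : 1 ≤ N) (φ : ℝ) {V ε : ℝ} (hV : 0 ≤ V) (hε : 0 ≤ ε) :
    (((Finset.range N).filter fun j : ℕ => ∃ v : ℤ × ℤ, v ≠ 0 ∧ nk v ≤ V ∧ nk v * |sin (tk v - (φ + 2 * π * j / N))| ≤ ε).card : ℝ) ≤
      (2 * V + 1) ^ 2 * (4 * (ε * N / 2 + 1)) := by
  set Bx : Finset (ℤ × ℤ) := Finset.Icc (-⌊V⌋) ⌊V⌋ ×ˢ Finset.Icc (-⌊V⌋) ⌊V⌋ with hBx
  have hsub : ((Finset.range N).filter fun j : ℕ => ∃ v : ℤ × ℤ, v ≠ 0 ∧ nk v ≤ V ∧ nk v * |sin (tk v - (φ + 2 * π * j / N))| ≤ ε) ⊆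
      Bx.biUnion fun v => (Finset.range N).filter fun j : ℕ => |sin ((tk v - φ) - 2 * π * j / N)| ≤ ε := by
    intro j hj
    obtain ⟨hj1, v, hv0, hv1, hv2⟩ := Finset.mem_filter.1 hj
    obtain ⟨h1, h2⟩ := abs_le_nk v
    have h3 := abs_le.1 (h1.trans hv1)
    have h4 := abs_le.1 (h2.trans hv1)
    rw [Finset.mem_biUnion]
    refine ⟨v, ?_, ?_⟩
    · rw [hBx, Finset.mem_product, Finset.mem_Icc, Finset.mem_Icc]
      refine ⟨⟨?_, Int.le_floor.2 h3.2⟩, ⟨?_, Int.le_floor.2 h4.2⟩⟩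
      · have : -v.1 ≤ ⌊V⌋ := Int.le_floor.2 (by push_cast; linarith [h3.1])
        omega
      · have : -v.2 ≤ ⌊V⌋ := Int.le_floor.2 (by push_cast; linarith [h4.1])
        omega
    · rw [Finset.mem_filter]
      refine ⟨hj1, ?_⟩
      have e : tk v - φ - 2 * π * j / N = tk v - (φ + 2 * π * j / N) := by ring
      rw [e]
      have h5 := one_le_nk hv0
      have h6 := abs_nonneg (sin (tk v - (φ + 2 * π * j / N)))
      nlinarith
  have hc : (((Finset.range N).filter fun j : ℕ => ∃ v : ℤ × ℤ, v ≠ 0 ∧ nk v ≤ V ∧ nk v * |sin (tk v - (φ + 2 * π * j / N))| ≤ ε).card : ℝ) ≤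
      ∑ v ∈ Bx, ((((Finset.range N).filter fun j : ℕ => |sin ((tk v - φ) - 2 * π * j / N)| ≤ ε).card : ℕ) : ℝ) := by
    exact_mod_cast (Finset.card_le_card hsub).trans Finset.card_biUnion_le
  have hB : (Bx.card : ℝ) ≤ (2 * V + 1) ^ 2 := by
    rw [hBx, Finset.card_product, Int.card_Icc]
    have h1 : (((⌊V⌋ + 1 - -⌊V⌋).toNat : ℕ) : ℝ) ≤ 2 * V + 1 := by
      have h2 : 0 ≤ ⌊V⌋ := Int.floor_nonneg.2 hV
      have h3 : (((⌊V⌋ + 1 - -⌊V⌋).toNat : ℕ) : ℝ) = ((⌊V⌋ + 1 - -⌊V⌋ : ℤ) : ℝ) := by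
        exact_mod_cast Int.toNat_of_nonneg (by omega)
      rw [h3]
      push_cast
      linarith [Int.floor_le V]
    push_cast
    rw [sq]
    exact mul_le_mul h1 h1 (by positivity) (by positivity)
  refine hc.trans ?_
  calc ∑ v ∈ Bx, ((((Finset.range N).filter fun j : ℕ => |sin ((tk v - φ) - 2 * π * j / N)| ≤ ε).card : ℕ) : ℝ)
      ≤ ∑ _v ∈ Bx, 4 * (ε * N / 2 + 1) := Finset.sum_le_sum fun v _ => sin_card N hN _ ε hε
    _ = Bx.card * (4 * (ε * N / 2 + 1)) := by rw [Finset.sum_const, nsmul_eq_mul]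
    _ ≤ _ := mul_le_mul_of_nonneg_right hB (by positivity)

/-- the imaginary part in polar form -/
lemma im_conj_z0 (M s j : ℕ) (v : ℤ × ℤ) :
    (cz v * (starRingEnd ℂ) (z0 M s j)).im = nk v * sin (tk v - th M s j) := by
  have e : zk v * (starRingEnd ℂ) (z0 M s j) = Complex.exp (((tk v - th M s j : ℝ) : ℂ) * Complex.I) := by
    unfold z0 zk
    rw [← Complex.exp_conj, ← Complex.exp_add]
    congr 1
    simp only [map_mul, Complex.conj_ofReal, Complex.conj_I]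
    push_cast
    ring
  rw [← nk_zk, mul_assoc, e, Complex.im_ofReal_mul, Complex.exp_ofReal_mul_I_im]

open Classical in
/-- **H5**: the number of the arcs which are close to the direction of a short integer vector -/
theorem special_card {M s : ℕ} (hM : 1 ≤ M) {lam : ℝ} (hlam : 1 ≤ lam) :
    (((Finset.range (8 * M ^ s)).filter (fun j => ¬ Gen M s j (lam / 2))).card : ℝ) ≤ 5 * (4 * lam + 1) ^ 3 := by
  have hMs : 0 < M ^ s := Nat.pow_pos (by omega)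
  have hMs' : (0 : ℝ) < (M : ℝ) ^ s := by exact_mod_cast hMs
  have h1 := special_gen (N := 8 * M ^ s) (by omega) 0 (V := lam / 2) (ε := lam / 2 / (M : ℝ) ^ s) (by linarith)
    (by positivity)
  have hsub : (Finset.range (8 * M ^ s)).filter (fun j => ¬ Gen M s j (lam / 2)) ⊆
      (Finset.range (8 * M ^ s)).filter fun j : ℕ => ∃ v : ℤ × ℤ, v ≠ 0 ∧ nk v ≤ lam / 2 ∧
        nk v * |sin (tk v - (0 + 2 * π * j / ((8 * M ^ s : ℕ) : ℝ)))| ≤ lam / 2 / (M : ℝ) ^ s := by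
    intro j hj
    obtain ⟨hj1, hj2⟩ := Finset.mem_filter.1 hj
    rw [Finset.mem_filter]
    refine ⟨hj1, ?_⟩
    unfold Gen at hj2
    push Not at hj2
    obtain ⟨v, hv1, hv2, hv3⟩ := hj2
    refine ⟨v, hv3, hv1, ?_⟩
    rw [im_conj_z0, abs_mul, abs_of_nonneg (show (0 : ℝ) ≤ nk v from norm_nonneg _)] at hv2
    have e : (0 : ℝ) + 2 * π * j / ((8 * M ^ s : ℕ) : ℝ) = th M s j := by
      unfold th
      ring
    rw [e]
    exact hv2
  have h2 : (((Finset.range (8 * M ^ s)).filter (fun j => ¬ Gen M s j (lam / 2))).card : ℝ) ≤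
      (((Finset.range (8 * M ^ s)).filter fun j : ℕ => ∃ v : ℤ × ℤ, v ≠ 0 ∧ nk v ≤ lam / 2 ∧
        nk v * |sin (tk v - (0 + 2 * π * j / ((8 * M ^ s : ℕ) : ℝ)))| ≤ lam / 2 / (M : ℝ) ^ s).card : ℝ) := by
    exact_mod_cast Finset.card_le_card hsub
  refine h2.trans (h1.trans ?_)
  have e : lam / 2 / (M : ℝ) ^ s * ((8 * M ^ s : ℕ) : ℝ) / 2 = 2 * lam := by
    push_cast
    field_simp
    ring
  rw [e]
  nlinarith [mul_nonneg (sub_nonneg.2 hlam) (sub_nonneg.2 hlam), pow_pos (by linarith : (0 : ℝ) < lam) 3,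
    mul_nonneg (by linarith : (0 : ℝ) ≤ lam) (sub_nonneg.2 hlam)]

end Pool.Agent.Helper64.AO
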